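import Pool.Agent.Helper52.AT.Defs

/-! Block AT-SEQd (helper67 for helper52): `neg_le`, `neg_gt`. -/

set_option autoImplicit false

namespace Pool.Agent.Helper52.AT

open Filter Topology

/-- the quotients `s n / μ₀ ^ n` converge geometrically -/
theorem seqd_aux {μ₀ : ℂ} {δ : ℝ} (hδ : 0 < δ) (hlt : δ < ‖μ₀‖) {s s' : ℕ → ℂ}
    (hs : ∀ n, s (n + 1) - μ₀ * s n = s' n) (hB : BO δ s') :
    ∃ c' : ℂ, Tendsto (fun n => s n / μ₀ ^ n) atTop (𝓝 c') ∧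
      ∃ K : ℝ, ∀ᶠ n in atTop, ‖s n / μ₀ ^ n - c'‖ ≤ K * (δ / ‖μ₀‖) ^ n := by
  have hμ : 0 < ‖μ₀‖ := hδ.trans hlt
  have hμ0 : μ₀ ≠ 0 := norm_pos_iff.1 hμ
  obtain ⟨C, hC⟩ := hB
  obtain ⟨n₀, hn₀⟩ := eventually_atTop.1 hC
  have hρ : δ / ‖μ₀‖ < 1 := (div_lt_one hμ).2 hlt
  have hρ0 : 0 < δ / ‖μ₀‖ := div_pos hδ hμ
  set r : ℕ → ℂ := fun n => s n / μ₀ ^ n with hr
  have hstep : ∀ n, r (n + 1) - r n = s' n / μ₀ ^ (n + 1) := by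
    intro n
    simp only [hr]
    rw [← hs n]
    have : μ₀ ^ n ≠ 0 := pow_ne_zero _ hμ0
    field_simp
    ring
  have hd : ∀ m, dist (r (n₀ + m)) (r (n₀ + (m + 1))) ≤
      (C / ‖μ₀‖ * (δ / ‖μ₀‖) ^ n₀) * (δ / ‖μ₀‖) ^ m := by
    intro m
    rw [dist_comm, dist_eq_norm, ← add_assoc, hstep, norm_div, norm_pow]
    have h1 := hn₀ (n₀ + m) (by omega)
    calc ‖s' (n₀ + m)‖ / ‖μ₀‖ ^ (n₀ + m + 1) ≤ C * δ ^ (n₀ + m) / ‖μ₀‖ ^ (n₀ + m + 1) := by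
          gcongr
      _ = (C / ‖μ₀‖ * (δ / ‖μ₀‖) ^ n₀) * (δ / ‖μ₀‖) ^ m := by
          rw [div_pow, div_pow, pow_add δ, pow_succ, pow_add ‖μ₀‖]
          field_simp
  obtain ⟨c', hc'⟩ := cauchySeq_tendsto_of_complete
    (cauchySeq_of_le_geometric (f := fun m => r (n₀ + m)) _ _ hρ hd)
  have hlim : Tendsto r atTop (𝓝 c') := by
    have h2 : Tendsto (fun m => r (m + n₀)) atTop (𝓝 c') := by
      simpa [add_comm] using hc'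
    exact (tendsto_add_atTop_iff_nat n₀).1 h2
  refine ⟨c', hlim, C / ‖μ₀‖ / (1 - δ / ‖μ₀‖), ?_⟩
  refine eventually_atTop.2 ⟨n₀, fun n hn => ?_⟩
  obtain ⟨m, rfl⟩ := Nat.exists_eq_add_of_le hn
  have h3 := dist_le_of_le_geometric_of_tendsto (f := fun m => r (n₀ + m)) _ _ hρ hd hc' m
  rw [dist_eq_norm] at h3
  refine h3.trans (le_of_eq ?_)
  rw [pow_add]
  ring

/-! ## AT-SEQd -/
theorem neg_le {μ₀ : ℂ} {δ : ℝ} (hδ : 0 < δ) {s s' : ℕ → ℂ}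
    (hs : ∀ n, s (n + 1) - μ₀ * s n = s' n) (h : ∀ δ' > δ, BO δ' s') (hμ : ‖μ₀‖ ≤ δ) :
    ∀ δ' > δ, BO δ' s := by
  intro δ' hδ'
  obtain ⟨C, hC⟩ := h δ' hδ'
  obtain ⟨n₀, hn₀⟩ := eventually_atTop.1 hC
  have hδ'0 : 0 < δ' := hδ.trans hδ'
  have hgap : 0 < δ' - δ := sub_pos.2 hδ'
  set C' : ℝ := max (‖s n₀‖ / δ' ^ n₀) (C / (δ' - δ)) with hC'
  have hC'0 : 0 ≤ C' := le_max_of_le_left (by positivity)
  refine ⟨C', eventually_atTop.2 ⟨n₀, fun n hn => ?_⟩⟩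
  induction n, hn using Nat.le_induction with
  | base =>
    have h1 : ‖s n₀‖ / δ' ^ n₀ ≤ C' := le_max_left _ _
    rwa [div_le_iff₀ (by positivity)] at h1
  | succ n hn ih =>
    have h1 : s (n + 1) = μ₀ * s n + s' n := by rw [← hs n]; ring
    have h2 : C ≤ C' * (δ' - δ) := by
      have : C / (δ' - δ) ≤ C' := le_max_right _ _
      rwa [div_le_iff₀ hgap] at this
    have h3 := hn₀ n hn
    calc ‖s (n + 1)‖ ≤ ‖μ₀‖ * ‖s n‖ + ‖s' n‖ := by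
          rw [h1]
          refine (norm_add_le _ _).trans ?_
          rw [norm_mul]
      _ ≤ δ * (C' * δ' ^ n) + C * δ' ^ n := by
          gcongr
      _ ≤ δ * (C' * δ' ^ n) + C' * (δ' - δ) * δ' ^ n := by
          gcongr
      _ = C' * δ' ^ (n + 1) := by rw [pow_succ]; ring

theorem neg_gt {μ₀ : ℂ} {δ : ℝ} (hδ : 0 < δ) {s s' : ℕ → ℂ}
    (hs : ∀ n, s (n + 1) - μ₀ * s n = s' n) (h : ∀ δ' > δ, BO δ' s') (hμ : δ < ‖μ₀‖) :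
    (∃ c', Reg μ₀ 0 c' s) ∨ ∀ δ' > δ, BO δ' s := by
  have hμpos : 0 < ‖μ₀‖ := hδ.trans hμ
  have hμ0 : μ₀ ≠ 0 := norm_pos_iff.1 hμpos
  obtain ⟨δ₁, hδ₁, hδ₁'⟩ := exists_between hμ
  obtain ⟨c', hc', -⟩ := seqd_aux (hδ.trans hδ₁) hδ₁' hs (h δ₁ hδ₁)
  by_cases hc0 : c' = 0
  · right
    intro δ' hδ'
    obtain ⟨δ₂, hδ₂, hδ₂'⟩ := exists_between (lt_min hδ' hμ)
    have hδ₂0 : 0 < δ₂ := hδ.trans hδ₂
    obtain ⟨c'', hc'', K, hK⟩ := seqd_aux hδ₂0 (hδ₂'.trans_le (min_le_right _ _)) hs (h δ₂ hδ₂)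
    have hcc : c'' = 0 := by rw [← hc0]; exact tendsto_nhds_unique hc'' hc'
    refine ⟨|K|, ?_⟩
    filter_upwards [hK] with n hn
    rw [hcc, sub_zero, norm_div, norm_pow, div_pow, div_le_iff₀ (by positivity)] at hn
    calc ‖s n‖ ≤ K * (δ₂ ^ n / ‖μ₀‖ ^ n) * ‖μ₀‖ ^ n := hn
      _ = K * δ₂ ^ n := by field_simp
      _ ≤ |K| * δ' ^ n := by
          have h1 : δ₂ ≤ δ' := (hδ₂'.trans_le (min_le_left _ _)).le
          have h2 : δ₂ ^ n ≤ δ' ^ n := pow_le_pow_left₀ hδ₂0.le h1 n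
          calc K * δ₂ ^ n ≤ |K| * δ₂ ^ n :=
                mul_le_mul_of_nonneg_right (le_abs_self K) (by positivity)
            _ ≤ |K| * δ' ^ n := mul_le_mul_of_nonneg_left h2 (abs_nonneg K)
  · left
    refine ⟨c', hμ0, hc0, ?_⟩
    simpa using hc'

end Pool.Agent.Helper52.AT
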